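import Mathlib

set_option autoImplicit false
set_option linter.unusedSectionVars false
set_option linter.unusedVariables false
set_option linter.dupNamespace false

/-!
Multiple mixing: two forms of the definition, and averages.
-/

namespace Pool.Agent.U808.MM

open MeasureTheory Set Filter Topology
open scoped ENNReal symmDiff

/-- multiply mixing -/
def MM {Z : Type*} [MeasurableSpace Z] (m : Measure Z) (S : Z → Z) : Prop :=
  ∀ k : ℕ, 2 ≤ k → ∀ A : ℕ → Set Z, (∀ i, MeasurableSet (A i)) → ∀ ε : ℝ, 0 < ε →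
    ∃ N : ℕ, ∀ n : ℕ → ℕ, n 0 = 0 → (∀ i < k, n i + N ≤ n (i + 1)) →
      |m.real {z | ∀ i ≤ k, S^[n i] z ∈ A i} - ∏ i ∈ Finset.range (k + 1), m.real (A i)| < ε

/-- multiply mixing, all orders, arbitrary starting time -/
def MI {Z : Type*} [MeasurableSpace Z] (m : Measure Z) (S : Z → Z) : Prop :=
  ∀ R : ℕ, ∀ A : Fin R → Set Z, (∀ i, MeasurableSet (A i)) → ∀ ε : ℝ, 0 < ε →
    ∃ N : ℕ, ∀ n : Fin R → ℕ, (∀ i j, i < j → n i + N ≤ n j) →
      |m.real {z | ∀ i, S^[n i] z ∈ A i} - ∏ i, m.real (A i)| < ε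

section
variable {Z : Type*} [MeasurableSpace Z] {m : Measure Z} [IsProbabilityMeasure m] {S : Z → Z}

theorem meas_cyl (hS : Measurable S) {R : ℕ} (A : Fin R → Set Z) (hA : ∀ i, MeasurableSet (A i))
    (n : Fin R → ℕ) : MeasurableSet {z | ∀ i, S^[n i] z ∈ A i} := by
  have h : {z | ∀ i, S^[n i] z ∈ A i} = ⋂ i, (S^[n i]) ⁻¹' (A i) := by
    ext z
    simp
  rw [h]
  exact MeasurableSet.iInter fun i => (hS.iterate (n i)) (hA i)

theorem MM_of_MI (h : MI m S) : MM m S := by
  intro k hk A hA ε hε
  obtain ⟨N, hN⟩ := h (k + 1) (fun i => A i) (fun i => hA i) ε hε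
  refine ⟨N, fun n h0 hn => ?_⟩
  have hmono : ∀ i j : ℕ, i < j → j ≤ k → n i + N ≤ n j := by
    intro i j hij
    induction j, hij using Nat.le_induction with
    | base => intro hj; exact hn i (by omega)
    | succ j hj ih =>
      intro hjk
      have h1 := ih (by omega)
      have h2 := hn j (by omega)
      omega
  have h3 := hN (fun i => n i) (fun i j hij => hmono i j hij (by omega))
  rw [Finset.prod_range]
  have h4 : {z | ∀ i ≤ k, S^[n i] z ∈ A i} = {z | ∀ i : Fin (k + 1), S^[n i] z ∈ A i} := by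
    ext z
    simp only [mem_ofPred_eq]
    constructor
    · intro hz i
      exact hz i (by omega)
    · intro hz i hi
      exact hz ⟨i, by omega⟩
  rw [h4]
  exact h3

theorem MI_of_MM (hS : MeasurePreserving S m m) (h : MM m S) : MI m S := by
  intro R A hA ε hε
  set A' : ℕ → Set Z := fun i => if hi : i < R then A ⟨i, hi⟩ else univ with hA'
  have hA'm : ∀ i, MeasurableSet (A' i) := by
    intro i
    by_cases hi : i < R
    · simp only [hA', hi, dite_true]; exact hA _
    · simp only [hA', hi, dite_false]; exact MeasurableSet.univ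
  obtain ⟨N, hN⟩ := h (R + 2) (by omega) A' hA'm ε hε
  refine ⟨N, fun n hn => ?_⟩
  rcases Nat.eq_zero_or_pos R with hR | hR
  · subst hR
    simp [hε]
  · set n0 := n ⟨0, hR⟩ with hn0
    have hge : ∀ i : Fin R, n0 ≤ n i := by
      intro i
      rcases Nat.eq_zero_or_pos i with h0 | h0
      · have : i = ⟨0, hR⟩ := Fin.ext h0
        rw [this]
      · have := hn ⟨0, hR⟩ i h0
        omega
    set n' : ℕ → ℕ := fun i => if hi : i < R then n ⟨i, hi⟩ - n0 else
      (n ⟨R - 1, by omega⟩ - n0) + (i - (R - 1)) * N with hn'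
    have h0 : n' 0 = 0 := by simp [hn', hR, hn0]
    have hstep : ∀ i < R + 2, n' i + N ≤ n' (i + 1) := by
      intro i hi
      by_cases h1 : i + 1 < R
      · have h2 : i < R := by omega
        simp only [hn', h1, h2, dite_true]
        have h3 := hn ⟨i, h2⟩ ⟨i + 1, h1⟩ (by simp [Fin.lt_def])
        have h4 := hge ⟨i, h2⟩
        omega
      · by_cases h2 : i < R
        · have h3 : i = R - 1 := by omega
          subst h3
          have h4 : ¬ (R - 1 + 1 < R) := h1
          simp only [hn', h4, h2, dite_true, dite_false]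
          have h5 : R - 1 + 1 - (R - 1) = 1 := by omega
          rw [h5, one_mul]
        · have h3 : ¬ (i + 1 < R) := h1
          simp only [hn', h3, h2, dite_false]
          have h5 : i + 1 - (R - 1) = (i - (R - 1)) + 1 := by omega
          rw [h5, add_mul, one_mul, add_assoc]
    have h1 := hN n' h0 hstep
    have h2 : ∏ i ∈ Finset.range (R + 2 + 1), m.real (A' i) = ∏ i, m.real (A i) := by
      rw [show R + 2 + 1 = R + 3 from rfl, Finset.prod_range_add]
      have h3 : ∏ x ∈ Finset.range 3, m.real (A' (R + x)) = 1 := by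
        apply Finset.prod_eq_one
        intro x _
        have h4 : ¬ (R + x < R) := by omega
        simp only [hA', h4, dite_false]
        simp
      rw [h3, mul_one, Finset.prod_range]
      refine Finset.prod_congr rfl fun i _ => ?_
      simp only [hA', i.2, dite_true]
    have h3 : (S^[n0]) ⁻¹' {z | ∀ i ≤ R + 2, S^[n' i] z ∈ A' i} = {z | ∀ i, S^[n i] z ∈ A i} := by
      ext z
      simp only [mem_preimage, mem_ofPred_eq]
      constructor
      · intro hz i
        have h4 := hz i (by omega)
        rw [← Function.iterate_add_apply] at h4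
        simp only [hn', hA', i.2, dite_true] at h4
        have h5 : n i - n0 + n0 = n i := Nat.sub_add_cancel (hge i)
        rw [h5] at h4
        exact h4
      · intro hz i hi
        by_cases h4 : i < R
        · rw [← Function.iterate_add_apply]
          simp only [hn', hA', h4, dite_true]
          rw [Nat.sub_add_cancel (hge ⟨i, h4⟩)]
          exact hz ⟨i, h4⟩
        · simp only [hA', h4, dite_false]
          exact mem_univ _
    have h4 : MeasurableSet {z | ∀ i ≤ R + 2, S^[n' i] z ∈ A' i} := by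
      have h5 : {z | ∀ i ≤ R + 2, S^[n' i] z ∈ A' i} = ⋂ i, ⋂ _ : i ≤ R + 2, (S^[n' i]) ⁻¹' (A' i) := by
        ext z
        simp
      rw [h5]
      exact MeasurableSet.iInter fun i => MeasurableSet.iInter fun _ => (hS.measurable.iterate (n' i)) (hA'm i)
    have h5 : m.real {z | ∀ i, S^[n i] z ∈ A i} = m.real {z | ∀ i ≤ R + 2, S^[n' i] z ∈ A' i} := by
      rw [← h3]
      exact measureReal_def _ _ ▸ by
        rw [(hS.iterate n0).measure_preimage h4.nullMeasurableSet]; rfl
    rw [h5, ← h2]
    exact h1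

end

/-! ### products -/

theorem prod_diff {ι : Type*} (s : Finset ι) (a b : ι → ℝ) (ha : ∀ i, |a i| ≤ 1) (hb : ∀ i, |b i| ≤ 1) :
    |∏ i ∈ s, a i - ∏ i ∈ s, b i| ≤ ∑ i ∈ s, |a i - b i| := by
  classical
  induction s using Finset.induction_on with
  | empty => simp
  | insert j s hj ih =>
    rw [Finset.prod_insert hj, Finset.prod_insert hj, Finset.sum_insert hj]
    have h1 : a j * ∏ i ∈ s, a i - b j * ∏ i ∈ s, b i =
        (a j - b j) * ∏ i ∈ s, a i + b j * (∏ i ∈ s, a i - ∏ i ∈ s, b i) := by ring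
    rw [h1]
    refine (abs_add_le _ _).trans ?_
    rw [abs_mul, abs_mul]
    have h2 : |∏ i ∈ s, a i| ≤ 1 := by
      rw [Finset.abs_prod]
      exact Finset.prod_le_one (fun i _ => abs_nonneg _) (fun i _ => ha i)
    have h3 : |a j - b j| * |∏ i ∈ s, a i| ≤ |a j - b j| * 1 :=
      mul_le_mul_of_nonneg_left h2 (abs_nonneg _)
    have h4 : |b j| * |∏ i ∈ s, a i - ∏ i ∈ s, b i| ≤ 1 * |∏ i ∈ s, a i - ∏ i ∈ s, b i| :=
      mul_le_mul_of_nonneg_right (hb j) (abs_nonneg _)
    linarith

section
variable {X : Type*} [MeasurableSpace X] {μ : Measure X} [IsProbabilityMeasure μ]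

theorem real_abs_le (A : Set X) : |μ.real A| ≤ 1 := by
  rw [abs_of_nonneg measureReal_nonneg]
  exact measureReal_le_one

/-- indicator function -/
noncomputable def ind (E : Set X) (x : X) : ℝ := E.indicator (fun _ => (1 : ℝ)) x

theorem ind_meas {E : Set X} (hE : MeasurableSet E) : Measurable (ind E) :=
  measurable_const.indicator hE

theorem ind_bd (E : Set X) (x : X) : 0 ≤ ind E x ∧ ind E x ≤ 1 := by
  unfold ind
  by_cases h : x ∈ E
  · rw [indicator_of_mem h]; norm_num
  · rw [indicator_of_notMem h]; norm_num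

theorem ind_int {E : Set X} (hE : MeasurableSet E) : Integrable (ind E) μ :=
  (integrable_const (1 : ℝ)).indicator hE

theorem int_ind {E : Set X} (hE : MeasurableSet E) : ∫ x, ind E x ∂μ = μ.real E := by
  unfold ind
  rw [integral_indicator_const _ hE]
  simp

theorem ind_mul (E F : Set X) (x : X) : ind E x * ind F x = ind (E ∩ F) x := by
  unfold ind
  by_cases h1 : x ∈ E <;> by_cases h2 : x ∈ F <;> simp [h1, h2]

theorem avg_L1 (K : ℕ) (hK : 0 < K) (E : ℕ → Set X) (hE : ∀ j, MeasurableSet (E j)) (c ε : ℝ)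
    (hc0 : 0 ≤ c) (hc1 : c ≤ 1) (hε : 0 < ε)
    (h1 : ∀ j < K, |μ.real (E j) - c| ≤ ε ^ 2)
    (h2 : ∀ j l, j < l → l < K → |μ.real (E j ∩ E l) - c ^ 2| ≤ ε ^ 2)
    (h3 : 1 ≤ ε ^ 2 * K) :
    ∫ x, |(1 / (K : ℝ)) * ∑ j ∈ Finset.range K, ind (E j) x - c| ∂μ ≤ 2 * ε := by
  have hKp : (0 : ℝ) < K := by exact_mod_cast hK
  set g : ℕ → X → ℝ := fun j x => ind (E j) x - c with hg
  have hf : ∀ x, (1 / (K : ℝ)) * ∑ j ∈ Finset.range K, ind (E j) x - c =
      (1 / (K : ℝ)) * ∑ j ∈ Finset.range K, g j x := by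
    intro x
    simp only [hg, Finset.sum_sub_distrib, Finset.sum_const, Finset.card_range, nsmul_eq_mul]
    field_simp
  have hgg : ∀ j l x, g j x * g l x = ind (E j ∩ E l) x - c * ind (E j) x - c * ind (E l) x + c ^ 2 := by
    intro j l x
    rw [← ind_mul]
    simp only [hg]
    ring
  have hggi : ∀ j l, Integrable (fun x => g j x * g l x) μ := by
    intro j l
    simp only [hgg]
    exact (((ind_int ((hE j).inter (hE l))).sub ((ind_int (hE j)).const_mul c)).sub
      ((ind_int (hE l)).const_mul c)).add (integrable_const _)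
  have hint : ∀ j l, ∫ x, g j x * g l x ∂μ =
      μ.real (E j ∩ E l) - c * μ.real (E j) - c * μ.real (E l) + c ^ 2 := by
    intro j l
    simp only [hgg]
    have i1 : Integrable (fun x => ind (E j ∩ E l) x) μ := ind_int ((hE j).inter (hE l))
    have i2 : Integrable (fun x => c * ind (E j) x) μ := (ind_int (hE j)).const_mul c
    have i3 : Integrable (fun x => c * ind (E l) x) μ := (ind_int (hE l)).const_mul c
    have i4 : Integrable (fun x => ind (E j ∩ E l) x - c * ind (E j) x) μ := i1.sub i2
    have i5 : Integrable (fun x => ind (E j ∩ E l) x - c * ind (E j) x - c * ind (E l) x) μ := i4.sub i3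
    rw [integral_add i5 (integrable_const _), integral_sub i4 i3, integral_sub i1 i2,
      integral_const_mul, integral_const_mul, int_ind (hE j), int_ind (hE l), int_ind ((hE j).inter (hE l))]
    simp
  have hoff : ∀ j l, j < K → l < K → j ≠ l → ∫ x, g j x * g l x ∂μ ≤ 3 * ε ^ 2 := by
    intro j l hj hl hjl
    rw [hint]
    have e1 := abs_le.1 (h1 j hj)
    have e2 := abs_le.1 (h1 l hl)
    have e3 : μ.real (E j ∩ E l) ≤ c ^ 2 + ε ^ 2 := by
      rcases lt_or_gt_of_ne hjl with h | h
      · have := abs_le.1 (h2 j l h hl)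
        linarith
      · have := abs_le.1 (h2 l j h hj)
        rw [inter_comm] at this
        linarith
    have e4 : 0 ≤ ε ^ 2 := by positivity
    nlinarith
  have hdiag : ∀ j, ∫ x, g j x * g j x ∂μ ≤ 1 := by
    intro j
    have e1 : ∫ x, g j x * g j x ∂μ ≤ ∫ x, (1 : ℝ) ∂μ := by
      refine integral_mono (hggi j j) (integrable_const _) fun x => ?_
      have := ind_bd (E j) x
      simp only [hg]
      nlinarith
    simpa using e1
  set S2 : X → ℝ := fun x => (∑ j ∈ Finset.range K, g j x) * (∑ j ∈ Finset.range K, g j x) with hS2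
  have hS2' : ∀ x, S2 x = ∑ j ∈ Finset.range K, ∑ l ∈ Finset.range K, g j x * g l x := by
    intro x
    exact Finset.sum_mul_sum _ _ _ _
  have hS2i : Integrable S2 μ := by
    have : S2 = fun x => ∑ j ∈ Finset.range K, ∑ l ∈ Finset.range K, g j x * g l x := funext hS2'
    rw [this]
    exact integrable_finsetSum _ fun j _ => integrable_finsetSum _ fun l _ => hggi j l
  have hS2int : ∫ x, S2 x ∂μ ≤ K + 3 * ε ^ 2 * K ^ 2 := by
    simp only [hS2']
    rw [integral_finsetSum _ fun j _ => integrable_finsetSum _ fun l _ => hggi j l]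
    have e1 : ∀ j ∈ Finset.range K, ∫ x, ∑ l ∈ Finset.range K, g j x * g l x ∂μ ≤ 1 + 3 * ε ^ 2 * K := by
      intro j hj
      rw [integral_finsetSum _ fun l _ => hggi j l]
      rw [← Finset.add_sum_erase _ _ hj]
      refine add_le_add (hdiag j) ?_
      have e2 : ∑ l ∈ (Finset.range K).erase j, ∫ x, g j x * g l x ∂μ ≤
          ∑ l ∈ (Finset.range K).erase j, 3 * ε ^ 2 := by
        refine Finset.sum_le_sum fun l hl => ?_
        exact hoff j l (Finset.mem_range.1 hj) (Finset.mem_range.1 (Finset.mem_of_mem_erase hl))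
          (Finset.ne_of_mem_erase hl).symm
      refine e2.trans ?_
      rw [Finset.sum_const, nsmul_eq_mul, mul_comm]
      have e3 : (((Finset.range K).erase j).card : ℝ) ≤ K := by
        have := Finset.card_erase_le (s := Finset.range K) (a := j)
        rw [Finset.card_range] at this
        exact_mod_cast this
      have e4 : (0 : ℝ) ≤ 3 * ε ^ 2 := by positivity
      nlinarith
    refine (Finset.sum_le_sum e1).trans ?_
    rw [Finset.sum_const, Finset.card_range, nsmul_eq_mul]
    apply le_of_eq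
    ring
  have hfi : Integrable (fun x => |(1 / (K : ℝ)) * ∑ j ∈ Finset.range K, ind (E j) x - c|) μ := by
    refine Integrable.abs ?_
    exact ((integrable_finsetSum _ fun j _ => ind_int (hE j)).const_mul _).sub (integrable_const _)
  calc ∫ x, |(1 / (K : ℝ)) * ∑ j ∈ Finset.range K, ind (E j) x - c| ∂μ
      ≤ ∫ x, ((1 / (4 * ε * K ^ 2)) * S2 x + ε) ∂μ := by
        refine integral_mono hfi ((hS2i.const_mul _).add (integrable_const _)) fun x => ?_
        show |(1 / (K : ℝ)) * ∑ j ∈ Finset.range K, ind (E j) x - c| ≤ (1 / (4 * ε * K ^ 2)) * S2 x + ε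
        rw [hf x]
        set a := ∑ j ∈ Finset.range K, g j x with ha
        have e1 : S2 x = a * a := rfl
        rw [e1]
        set b := (1 / (K : ℝ)) * a with hb
        have e2 : (1 / (4 * ε * K ^ 2)) * (a * a) = b ^ 2 / (4 * ε) := by
          rw [hb]
          field_simp
        rw [e2]
        have e3 : |b| ≤ b ^ 2 / (4 * ε) + ε := by
          have e4 : 0 ≤ (|b| - 2 * ε) ^ 2 := sq_nonneg _
          have e5 : |b| ^ 2 = b ^ 2 := sq_abs b
          rw [← sub_nonneg]
          have e6 : b ^ 2 / (4 * ε) + ε - |b| = (|b| - 2 * ε) ^ 2 / (4 * ε) := by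
            rw [← e5]
            field_simp
            ring
          rw [e6]
          positivity
        exact e3
    _ = (1 / (4 * ε * K ^ 2)) * ∫ x, S2 x ∂μ + ε := by
        rw [integral_add (hS2i.const_mul _) (integrable_const _), integral_const_mul]
        simp
    _ ≤ (1 / (4 * ε * K ^ 2)) * (K + 3 * ε ^ 2 * K ^ 2) + ε := by
        gcongr
    _ ≤ 2 * ε := by
        have e1 : (1 / (4 * ε * K ^ 2)) * (K + 3 * ε ^ 2 * K ^ 2) = (1 + 3 * (ε ^ 2 * K)) / (4 * ε * K) := by
          field_simp
        rw [e1]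
        have e2 : (1 + 3 * (ε ^ 2 * K)) / (4 * ε * K) ≤ ε := by
          rw [div_le_iff₀ (by positivity)]
          nlinarith
        linarith

end

end Pool.Agent.U808.MM
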