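import Mathlib
import Pool.Agent.U808.MM1

set_option autoImplicit false
set_option linter.unusedSectionVars false
set_option linter.unusedVariables false

/-!
The averages of the base.
-/

namespace Pool.Agent.U808.MM

open MeasureTheory Set Filter Topology
open scoped ENNReal symmDiff

section
variable {X : Type*} [MeasurableSpace X] {μ : Measure X} [IsProbabilityMeasure μ] {T : X → X}

theorem real_pre (hT : MeasurePreserving T μ μ) (n : ℕ) (A : Set X) (hA : MeasurableSet A) :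
    μ.real (T^[n] ⁻¹' A) = μ.real A := by
  rw [measureReal_def, (hT.iterate n).measure_preimage hA.nullMeasurableSet, measureReal_def]

theorem mix2 (h : MI μ T) (A B : Set X) (hA : MeasurableSet A) (hB : MeasurableSet B)
    (ε : ℝ) (hε : 0 < ε) :
    ∃ N : ℕ, ∀ n ≥ N, |μ.real (A ∩ T^[n] ⁻¹' B) - μ.real A * μ.real B| < ε := by
  obtain ⟨N, hN⟩ := h 2 ![A, B] (fun i => by
    refine Fin.cases ?_ (fun j => ?_) i
    · exact hA
    · refine Fin.cases ?_ (fun k => k.elim0) j
      exact hB) ε hε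
  refine ⟨N, fun n hn => ?_⟩
  have h1 := hN ![0, n] (fun i j hij => by
    have : i = 0 ∧ j = 1 := by omega
    obtain ⟨rfl, rfl⟩ := this
    simpa using hn)
  rw [Fin.prod_univ_two] at h1
  have h2 : {z | ∀ i : Fin 2, T^[(![0, n] : Fin 2 → ℕ) i] z ∈ (![A, B] : Fin 2 → Set X) i} =
      A ∩ T^[n] ⁻¹' B := by
    ext z
    simp [Fin.forall_fin_two]
  rw [h2] at h1
  exact h1

theorem erg (hT : MeasurePreserving T μ μ) (h : MI μ T) {R : ℕ} {Q : Type*} [Finite Q]
    (A : Q → Fin R → Set X) (hA : ∀ q i, MeasurableSet (A q i)) (ε : ℝ) (hε : 0 < ε) :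
    ∃ K : ℕ, 0 < K ∧ ∃ t : ℕ → ℕ, ∃ N : ℕ, ∀ n : Fin R → ℕ, (∀ i j, i < j → n i + N ≤ n j) → ∀ q,
      ∫ x, |(1 / (K : ℝ)) * ∑ j ∈ Finset.range K, ind {x | ∀ i, T^[n i + t j] x ∈ A q i} x -
        ∏ i, μ.real (A q i)| ∂μ ≤ ε := by
  set e : ℝ := ε / 2 with he
  have hep : 0 < e := by positivity
  obtain ⟨K, hK⟩ := exists_nat_gt (1 / e ^ 2)
  have hK0 : 0 < K := by
    rcases Nat.eq_zero_or_pos K with h0 | h0
    · rw [h0] at hK
      have : 0 < 1 / e ^ 2 := by positivity
      push_cast at hK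
      linarith
    · exact h0
  have hK1 : 1 ≤ e ^ 2 * K := by
    rw [div_lt_iff₀ (by positivity)] at hK
    linarith
  have hη : 0 < e ^ 2 / (2 * (R + 1)) := by positivity
  -- mixing
  have hL : ∀ p : Q × Fin R, ∃ L : ℕ, ∀ s ≥ L,
      |μ.real (A p.1 p.2 ∩ T^[s] ⁻¹' A p.1 p.2) - μ.real (A p.1 p.2) * μ.real (A p.1 p.2)| <
        e ^ 2 / (2 * (R + 1)) := fun p => mix2 h _ _ (hA _ _) (hA _ _) _ hη
  choose Lf hLf using hL
  obtain ⟨L, hL⟩ := Finite.exists_le Lf
  set t : ℕ → ℕ := fun j => j * L with ht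
  -- multiple mixing
  set B : Q → ℕ → ℕ → Fin R → Set X := fun q j l i => (T^[t j] ⁻¹' A q i) ∩ (T^[t l] ⁻¹' A q i) with hB
  have hBm : ∀ q j l i, MeasurableSet (B q j l i) := fun q j l i =>
    ((hT.measurable.iterate _) (hA q i)).inter ((hT.measurable.iterate _) (hA q i))
  have hN1 : ∀ p : Q × Fin K × Fin K, ∃ N : ℕ, ∀ n : Fin R → ℕ, (∀ i j, i < j → n i + N ≤ n j) →
      |μ.real {z | ∀ i, T^[n i] z ∈ B p.1 p.2.1 p.2.2 i} - ∏ i, μ.real (B p.1 p.2.1 p.2.2 i)| < e ^ 2 / 2 :=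
    fun p => h R _ (fun i => hBm _ _ _ i) _ (by positivity)
  choose N1 hN1 using hN1
  obtain ⟨M1, hM1⟩ := Finite.exists_le N1
  have hN2 : ∀ q : Q, ∃ N : ℕ, ∀ n : Fin R → ℕ, (∀ i j, i < j → n i + N ≤ n j) →
      |μ.real {z | ∀ i, T^[n i] z ∈ A q i} - ∏ i, μ.real (A q i)| < e ^ 2 :=
    fun q => h R _ (fun i => hA _ i) _ (by positivity)
  choose N2 hN2 using hN2
  obtain ⟨M2, hM2⟩ := Finite.exists_le N2
  refine ⟨K, hK0, t, max M1 M2, fun n hn q => ?_⟩
  have h2e : ε = 2 * e := by rw [he]; ring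
  rw [h2e]
  refine avg_L1 K hK0 (fun j => {x | ∀ i, T^[n i + t j] x ∈ A q i}) (fun j => ?_) (∏ i, μ.real (A q i)) e
    ?_ ?_ hep ?_ ?_ hK1
  · exact meas_cyl hT.measurable _ (hA q) _
  · exact Finset.prod_nonneg fun i _ => measureReal_nonneg
  · exact Finset.prod_le_one (fun i _ => measureReal_nonneg) fun i _ => measureReal_le_one
  · intro j _
    refine (hN2 q (fun i => n i + t j) (fun i i' hii => ?_)).le
    have h1 := hn i i' hii
    have h2 := hM2 q
    have h3 := le_max_right M1 M2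
    show n i + t j + N2 q ≤ n i' + t j
    omega
  · intro j l hjl hl
    have hj : j < K := hjl.trans hl
    have h1 := hN1 (q, ⟨j, hj⟩, ⟨l, hl⟩) n (fun i i' hii => by
      have h1 := hn i i' hii
      have h2 := hM1 (q, ⟨j, hj⟩, ⟨l, hl⟩)
      have h3 := le_max_left M1 M2
      omega)
    have h2 : {x | ∀ i, T^[n i + t j] x ∈ A q i} ∩ {x | ∀ i, T^[n i + t l] x ∈ A q i} =
        {z | ∀ i, T^[n i] z ∈ B q j l i} := by
      ext z
      simp only [hB, mem_inter_iff, mem_ofPred_eq, mem_preimage, ← Function.iterate_add_apply,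
        ← forall_and, add_comm]
    rw [h2]
    have h3 : ∀ i, |μ.real (B q j l i) - μ.real (A q i) ^ 2| ≤ e ^ 2 / (2 * (R + 1)) := by
      intro i
      have h4 : B q j l i = T^[t j] ⁻¹' (A q i ∩ T^[t l - t j] ⁻¹' A q i) := by
        ext z
        simp only [hB, mem_inter_iff, mem_preimage, ← Function.iterate_add_apply]
        have : t l - t j + t j = t l := by
          apply Nat.sub_add_cancel
          exact Nat.mul_le_mul_right L hjl.le
        rw [this]
      rw [h4, real_pre hT _ _ ((hA q i).inter ((hT.measurable.iterate _) (hA q i))), sq]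
      refine (hLf (q, i) (t l - t j) ?_).le
      have h5 := hL (q, i)
      have h6 : L ≤ t l - t j := by
        show L ≤ l * L - j * L
        rw [← Nat.sub_mul]
        exact Nat.le_mul_of_pos_left L (by omega)
      exact h5.trans h6
    have h4 : |∏ i, μ.real (B q j l i) - (∏ i, μ.real (A q i)) ^ 2| ≤ e ^ 2 / 2 := by
      rw [← Finset.prod_pow]
      refine (prod_diff Finset.univ (fun i => μ.real (B q j l i)) (fun i => μ.real (A q i) ^ 2)
        (fun i => real_abs_le _) (fun i => ?_)).trans ?_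
      · rw [abs_pow]
        exact pow_le_one₀ (abs_nonneg _) (real_abs_le _)
      · refine (Finset.sum_le_sum fun i _ => h3 i).trans ?_
        rw [Finset.sum_const, Finset.card_univ, Fintype.card_fin, nsmul_eq_mul]
        have h5 : (R : ℝ) * (e ^ 2 / (2 * (R + 1))) = e ^ 2 / 2 * (R / (R + 1)) := by
          field_simp
        rw [h5]
        have h6 : (R : ℝ) / (R + 1) ≤ 1 := by
          rw [div_le_one (by positivity)]
          linarith
        have h7 : 0 ≤ e ^ 2 / 2 := by positivity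
        nlinarith
    have h5 := abs_sub_le (μ.real {z | ∀ i, T^[n i] z ∈ B q j l i}) (∏ i, μ.real (B q j l i))
      ((∏ i, μ.real (A q i)) ^ 2)
    have h6 : |μ.real {z | ∀ i, T^[n i] z ∈ B q j l i} - ∏ i, μ.real (B q j l i)| < e ^ 2 / 2 := h1
    linarith

end

end Pool.Agent.U808.MM
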