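import Mathlib
import Pool.Agent.U808.MM2
import Pool.Agent.W744.NG.All

set_option autoImplicit false
set_option linter.unusedSectionVars false
set_option linter.unusedVariables false

/-!
Approximation of sets in the product; nearly invariant labels.
-/

namespace Pool.Agent.U808.MM

open MeasureTheory Set Filter Topology
open scoped ENNReal symmDiff
open Pool.H359R3 Pool.H359R3.IX
open Pool.Agent.W744.NG

/-! ### approximation -/

section approx
variable {X Y : Type} [MeasurableSpace X] [MeasurableSpace Y] {μ : Measure X} {ν : Measure Y}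
  [IsProbabilityMeasure μ] [IsProbabilityMeasure ν] (D : YS ν)

/-- the set with sections `A w` -/
def stp {r : ℕ} (A : (Fin r → ZMod 2) → Set X) : Set (X × Y) := {z | z.1 ∈ A (D.v r z.2)}

theorem stp_eq {r : ℕ} (A : (Fin r → ZMod 2) → Set X) : stp D A = ⋃ w, (A w) ×ˢ {y | D.v r y = w} := by
  ext z
  simp [stp]

theorem stp_meas {r : ℕ} (A : (Fin r → ZMod 2) → Set X) (hA : ∀ w, MeasurableSet (A w)) :
    MeasurableSet (stp D A) := by
  rw [stp_eq]
  exact MeasurableSet.iUnion fun w => (hA w).prod (D.meas r w)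

theorem stp_real {r : ℕ} (A : (Fin r → ZMod 2) → Set X) (hA : ∀ w, MeasurableSet (A w)) :
    (μ.prod ν).real (stp D A) = ∑ w, μ.real (A w) * (1 / 2 ^ r) := by
  have h1 : stp D A = ⋃ w ∈ (Finset.univ : Finset (Fin r → ZMod 2)), (A w) ×ˢ {y | D.v r y = w} := by
    rw [stp_eq]
    simp
  rw [h1, measureReal_biUnion_finset]
  · refine Finset.sum_congr rfl fun w _ => ?_
    rw [measureReal_prod_prod, D.unif]
  · intro w _ w' _ hw
    rw [Function.onFun, Set.disjoint_left]
    rintro z ⟨_, h2⟩ ⟨_, h3⟩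
    exact hw (h2.symm.trans h3)
  · intro w _
    exact (hA w).prod (D.meas r w)

theorem real_sd_tri {Z : Type*} [MeasurableSpace Z] (m : Measure Z) [IsProbabilityMeasure m] (s t u : Set Z) :
    m.real (s ∆ u) ≤ m.real (s ∆ t) + m.real (t ∆ u) := measureReal_symmDiff_le _

/-- approximable sets -/
def Apx (μ : Measure X) (C : Set (X × Y)) : Prop := ∀ ε : ℝ, 0 < ε → ∃ r0 : ℕ, ∀ r ≥ r0,
  ∃ A : (Fin r → ZMod 2) → Set X, (∀ w, MeasurableSet (A w)) ∧ (μ.prod ν).real (C ∆ stp D A) < ε

theorem apx_all (C : Set (X × Y)) (hC : MeasurableSet C) : Apx D μ C := by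
  refine approx_induction (μ.prod ν) (image2 (fun x y => x ×ˢ y) {s : Set X | MeasurableSet s}
    {t : Set Y | MeasurableSet t}) generateFrom_prod.symm (Apx D μ) ?_ ?_ ?_ ?_ ?_ C hC
  · rintro _ ⟨s, hs, t, ht, rfl⟩ ε hε
    obtain ⟨r0, S, hS⟩ := D.gen t ht ε hε
    refine ⟨r0, fun r hr => ?_⟩
    classical
    set A : (Fin r → ZMod 2) → Set X := fun w => if ∃ y, D.v r y = w ∧ D.v r0 y ∈ S then s else ∅ with hA
    refine ⟨A, fun w => ?_, ?_⟩
    · simp only [hA]
      split_ifs
      · exact hs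
      · exact MeasurableSet.empty
    · have h1 : stp D A = s ×ˢ {y | D.v r0 y ∈ S} := by
        ext z
        simp only [stp, hA, mem_ofPred_eq, mem_prod]
        by_cases h : D.v r0 z.2 ∈ S
        · rw [if_pos ⟨z.2, rfl, h⟩]
          tauto
        · rw [if_neg]
          · simp [h]
          · rintro ⟨y, h2, h3⟩
            rw [D.ref r0 r hr y z.2 h2] at h3
            exact h h3
      rw [h1]
      refine lt_of_le_of_lt ?_ hS
      have h2 : (s ×ˢ t) ∆ (s ×ˢ {y | D.v r0 y ∈ S}) ⊆ (univ : Set X) ×ˢ (t ∆ {y | D.v r0 y ∈ S}) := by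
        rintro z hz
        simp only [Set.mem_symmDiff, mem_prod, mem_univ, true_and] at hz ⊢
        tauto
      refine (measureReal_mono h2).trans (le_of_eq ?_)
      rw [measureReal_prod_prod]
      simp
  · intro ε hε
    refine ⟨0, fun r _ => ⟨fun _ => ∅, fun _ => MeasurableSet.empty, ?_⟩⟩
    have : stp D (fun _ : Fin r → ZMod 2 => (∅ : Set X)) = ∅ := by
      ext z
      simp [stp]
    rw [this]
    simpa using hε
  · intro s _ hP ε hε
    obtain ⟨r0, h0⟩ := hP ε hε
    refine ⟨r0, fun r hr => ?_⟩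
    obtain ⟨A, hA, h1⟩ := h0 r hr
    refine ⟨fun w => (A w)ᶜ, fun w => (hA w).compl, ?_⟩
    have : sᶜ ∆ stp D (fun w => (A w)ᶜ) = s ∆ stp D A := by
      ext z
      simp only [Set.mem_symmDiff, mem_compl_iff, stp, mem_ofPred_eq]
      tauto
    rw [this]
    exact h1
  · intro s t _ _ hP hQ ε hε
    obtain ⟨r0, h0⟩ := hP (ε / 2) (by positivity)
    obtain ⟨r1, h1⟩ := hQ (ε / 2) (by positivity)
    refine ⟨max r0 r1, fun r hr => ?_⟩
    obtain ⟨A, hA, h2⟩ := h0 r ((le_max_left _ _).trans hr)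
    obtain ⟨B, hB, h3⟩ := h1 r ((le_max_right _ _).trans hr)
    refine ⟨fun w => A w ∪ B w, fun w => (hA w).union (hB w), ?_⟩
    have h4 : (s ∪ t) ∆ stp D (fun w => A w ∪ B w) ⊆ (s ∆ stp D A) ∪ (t ∆ stp D B) := by
      intro z hz
      simp only [Set.mem_symmDiff, mem_union, stp, mem_ofPred_eq] at hz ⊢
      tauto
    have h5 := (measureReal_mono (μ := μ.prod ν) h4).trans (measureReal_union_le _ _)
    linarith
  · intro s hs hap ε hε
    obtain ⟨t, ht, hPt, hst⟩ := hap (ε / 2) (by positivity)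
    obtain ⟨r0, h0⟩ := hPt (ε / 2) (by positivity)
    refine ⟨r0, fun r hr => ?_⟩
    obtain ⟨A, hA, h1⟩ := h0 r hr
    refine ⟨A, hA, ?_⟩
    have := real_sd_tri (μ.prod ν) s t (stp D A)
    linarith

end approx

/-! ### last visits -/

section visit
variable {X : Type} [MeasurableSpace X] {μ : Measure X} [IsProbabilityMeasure μ]

/-- points which never visited `A` -/
def nev (T : AU μ) (A : Set X) : Set X := {x | ∀ n : ℕ, (T.1.symm : X → X)^[n] x ∉ A}

theorem symm_it_meas (T : AU μ) (n : ℕ) : Measurable ((T.1.symm : X → X)^[n]) := T.1.symm.measurable.iterate n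

theorem nev_meas (T : AU μ) (A : Set X) (hA : MeasurableSet A) : MeasurableSet (nev T A) := by
  have : nev T A = ⋂ n : ℕ, ((T.1.symm : X → X)^[n] ⁻¹' A)ᶜ := by
    ext x
    simp [nev]
  rw [this]
  exact MeasurableSet.iInter fun n => (symm_it_meas T n hA).compl

theorem symm_it (T : AU μ) (n : ℕ) (x : X) : (T.1.symm : X → X)^[n] ((T.1 : X → X)^[n] x) = x := by
  have : Function.LeftInverse (T.1.symm : X → X) (T.1 : X → X) := T.1.symm_apply_apply
  exact this.iterate n x

theorem nev_null (T : AU μ) (h : MI μ T.1) (A : Set X) (hA : MeasurableSet A) (hA0 : 0 < μ.real A) :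
    μ.real (nev T A) = 0 := by
  by_contra hne
  have hpos : 0 < μ.real (nev T A) := lt_of_le_of_ne measureReal_nonneg (Ne.symm hne)
  obtain ⟨N, hN⟩ := mix2 h A (nev T A) hA (nev_meas T A hA) (μ.real A * μ.real (nev T A)) (by positivity)
  have h1 := hN N le_rfl
  have h2 : A ∩ (T.1 : X → X)^[N] ⁻¹' nev T A = ∅ := by
    apply Set.eq_empty_of_forall_notMem
    rintro z ⟨hz1, hz2⟩
    have h3 := hz2 N
    rw [symm_it] at h3
    exact h3 hz1
  rw [h2, measureReal_empty, zero_sub, abs_neg, abs_of_nonneg (by positivity)] at h1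
  exact lt_irrefl _ h1

open Classical in
/-- time since the last visit -/
noncomputable def tau (T : AU μ) (A : Set X) (x : X) : ℕ :=
  if h : ∃ n : ℕ, (T.1.symm : X → X)^[n] x ∈ A then Nat.find h else 0

theorem tau_meas (T : AU μ) (A : Set X) (hA : MeasurableSet A) : Measurable (tau T A) := by
  classical
  have hp : ∀ x, ∃ n : ℕ, (T.1.symm : X → X)^[n] x ∈ A ∨ x ∈ nev T A := by
    intro x
    by_cases h : ∃ n : ℕ, (T.1.symm : X → X)^[n] x ∈ A
    · obtain ⟨n, hn⟩ := h
      exact ⟨n, Or.inl hn⟩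
    · exact ⟨0, Or.inr fun n hn => h ⟨n, hn⟩⟩
  have h1 : tau T A = fun x => Nat.find (hp x) := by
    funext x
    unfold tau
    by_cases h : ∃ n : ℕ, (T.1.symm : X → X)^[n] x ∈ A
    · rw [dif_pos h]
      have hx : x ∉ nev T A := by
        obtain ⟨n, hn⟩ := h
        exact fun h2 => h2 n hn
      symm
      rw [Nat.find_eq_iff]
      refine ⟨Or.inl (Nat.find_spec h), fun n hn h2 => ?_⟩
      rcases h2 with h2 | h2
      · exact Nat.find_min h hn h2
      · exact hx h2
    · rw [dif_neg h]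
      symm
      rw [Nat.find_eq_zero]
      exact Or.inr fun n hn => h ⟨n, hn⟩
  rw [h1]
  refine measurable_find hp fun k => ?_
  exact (symm_it_meas T k hA).union (nev_meas T A hA)

/-- last visit -/
noncomputable def bas (T : AU μ) (A : Set X) (x : X) : X := (T.1.symm : X → X)^[tau T A x] x

theorem bas_meas (T : AU μ) (A : Set X) (hA : MeasurableSet A) : Measurable (bas T A) := by
  intro B hB
  have h1 : bas T A ⁻¹' B = ⋃ k : ℕ, ({x | tau T A x = k} ∩ ((T.1.symm : X → X)^[k] ⁻¹' B)) := by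
    ext x
    simp [bas]
  rw [h1]
  exact MeasurableSet.iUnion fun k => (tau_meas T A hA (measurableSet_singleton k)).inter (symm_it_meas T k hB)

theorem tau_step (T : AU μ) (A : Set X) (x : X) (h1 : x ∉ nev T A) (h2 : T.1 x ∉ A) :
    tau T A (T.1 x) = tau T A x + 1 ∧ bas T A (T.1 x) = bas T A x := by
  classical
  have hx : ∃ n : ℕ, (T.1.symm : X → X)^[n] x ∈ A := by
    by_contra h
    exact h1 fun n hn => h ⟨n, hn⟩
  have e1 : ∀ n : ℕ, (T.1.symm : X → X)^[n + 1] (T.1 x) = (T.1.symm : X → X)^[n] x := by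
    intro n
    rw [Function.iterate_succ_apply, T.1.symm_apply_apply]
  have hx2 : ∃ n : ℕ, (T.1.symm : X → X)^[n] (T.1 x) ∈ A := by
    obtain ⟨n, hn⟩ := hx
    exact ⟨n + 1, by rw [e1]; exact hn⟩
  have h3 : tau T A (T.1 x) = tau T A x + 1 := by
    unfold tau
    rw [dif_pos hx, dif_pos hx2, Nat.find_eq_iff]
    refine ⟨?_, fun n hn => ?_⟩
    · rw [e1]
      exact Nat.find_spec hx
    · rcases n with _ | n
      · exact h2
      · rw [e1]
        exact Nat.find_min hx (by omega)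
  refine ⟨h3, ?_⟩
  unfold bas
  rw [h3, e1]

theorem bad_le (T : AU μ) (h : MI μ T.1) (A : Set X) (hA : MeasurableSet A) (hA0 : 0 < μ.real A) :
    μ.real {x | ¬ (x ∉ nev T A ∧ T.1 x ∉ A)} ≤ μ.real A := by
  have h1 : {x | ¬ (x ∉ nev T A ∧ T.1 x ∉ A)} ⊆ nev T A ∪ T.1 ⁻¹' A := by
    intro x hx
    simp only [mem_ofPred_eq, not_and_or, not_not] at hx
    exact hx
  refine (measureReal_mono h1).trans ((measureReal_union_le _ _).trans ?_)
  rw [nev_null T h A hA hA0, zero_add, measureReal_def, T.2.measure_preimage hA.nullMeasurableSet,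
    measureReal_def]

end visit

end Pool.Agent.U808.MM
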