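import Mathlib
import Pool.Agent.U808.MM3

set_option autoImplicit false
set_option linter.unusedSectionVars false
set_option linter.unusedVariables false

/-!
Nearly invariant labels and density of spread coboundaries.
-/

namespace Pool.Agent.U808.MM

open MeasureTheory Set Filter Topology
open scoped ENNReal symmDiff
open Pool.H359R3 Pool.H359R3.IX
open Pool.Agent.W744.NG

section label
variable {X : Type} [MeasurableSpace X] [StandardBorelSpace X] {μ : Measure X} [IsProbabilityMeasure μ]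
  [NullSingletonClass μ]

variable (μ) in
theorem small_set (η : ℝ) (hη : 0 < η) : ∃ A : Set X, MeasurableSet A ∧ 0 < μ.real A ∧ μ.real A < η := by
  obtain ⟨D⟩ := YSt.main X μ
  obtain ⟨r, hr⟩ := exists_pow_lt_of_lt_one hη (by norm_num : (1 / 2 : ℝ) < 1)
  refine ⟨{x | D.v r x = 0}, D.meas r 0, ?_, ?_⟩
  · rw [D.unif]
    positivity
  · rw [D.unif]
    simpa using hr

theorem map_nonat (T : AU μ) (A : Set X) (hA : MeasurableSet A) : NullSingletonClass (μ.map (bas T A)) := by
  refine ⟨fun p => ?_⟩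
  rw [Measure.map_apply (bas_meas T A hA) (measurableSet_singleton p)]
  have h1 : bas T A ⁻¹' {p} ⊆ ⋃ n : ℕ, (T.1.symm : X → X)^[n] ⁻¹' {p} := by
    intro x hx
    exact mem_iUnion.2 ⟨tau T A x, hx⟩
  refine measure_mono_null h1 (measure_iUnion_null fun n => ?_)
  rw [((mp_symm T).iterate n).measure_preimage (measurableSet_singleton p).nullMeasurableSet]
  exact measure_singleton p

theorem label (T : AU μ) (h : MI μ T.1) (r : ℕ) (η : ℝ) (hη : 0 < η) :
    ∃ γ : X → Fin r → ZMod 2, (∀ w, MeasurableSet {x | γ x = w}) ∧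
      (∀ w, μ.real {x | γ x = w} = 1 / 2 ^ r) ∧
      ∃ E : Set X, MeasurableSet E ∧ μ.real E < η ∧ ∀ x, x ∉ E → γ (T.1 x) = γ x := by
  obtain ⟨A, hA, hA0, hA1⟩ := small_set μ η hη
  have hb := bas_meas T A hA
  have i1 : IsProbabilityMeasure (μ.map (bas T A)) := Measure.isProbabilityMeasure_map hb.aemeasurable
  have i2 : NullSingletonClass (μ.map (bas T A)) := map_nonat T A hA
  obtain ⟨D⟩ := YSt.main X (μ.map (bas T A))
  refine ⟨fun x => D.v r (bas T A x), fun w => hb (D.meas r w), fun w => ?_,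
    {x | ¬ (x ∉ nev T A ∧ T.1 x ∉ A)}, ?_, lt_of_le_of_lt (bad_le T h A hA hA0) hA1, fun x hx => ?_⟩
  · have h1 := D.unif r w
    rw [measureReal_def, Measure.map_apply hb (D.meas r w)] at h1
    exact h1
  · exact ((nev_meas T A hA).compl.inter (T.1.measurable hA.compl)).compl
  · simp only [mem_ofPred_eq, not_not] at hx
    show D.v r (bas T A (T.1 x)) = D.v r (bas T A x)
    rw [(tau_step T A x hx.1 hx.2).2]

theorem tower (T : AU μ) (h : MI μ T.1) (η : ℝ) (hη : 0 < η) :
    ∃ τ : X → ℕ, Measurable τ ∧ ∃ E : Set X, MeasurableSet E ∧ μ.real E < η ∧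
      ∀ x, x ∉ E → τ (T.1 x) = τ x + 1 := by
  obtain ⟨A, hA, hA0, hA1⟩ := small_set μ η hη
  refine ⟨tau T A, tau_meas T A hA,
    {x | ¬ (x ∉ nev T A ∧ T.1 x ∉ A)}, ?_, lt_of_le_of_lt (bad_le T h A hA hA0) hA1, fun x hx => ?_⟩
  · exact ((nev_meas T A hA).compl.inter (T.1.measurable hA.compl)).compl
  · simp only [mem_ofPred_eq, not_not] at hx
    exact (tau_step T A x hx.1 hx.2).1

end label

section indep
variable {X : Type*} [MeasurableSpace X] {μ : Measure X} [IsProbabilityMeasure μ] {T : X → X}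

theorem abs_real_sub {s t : Set X} (hs : MeasurableSet s) (ht : MeasurableSet t) :
    |μ.real s - μ.real t| ≤ μ.real (s ∆ t) :=
  abs_measureReal_sub_le_measureReal_symmDiff hs.nullMeasurableSet ht.nullMeasurableSet

theorem inv_it (hT : MeasurePreserving T μ μ) (G : Set X) (hG : MeasurableSet G) (n : ℕ) :
    μ.real ((T^[n] ⁻¹' G) ∆ G) ≤ n * μ.real ((T ⁻¹' G) ∆ G) := by
  induction n with
  | zero => simp
  | succ n ih =>
    have h1 : μ.real ((T^[n + 1] ⁻¹' G) ∆ (T^[n] ⁻¹' G)) = μ.real ((T ⁻¹' G) ∆ G) := by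
      have h2 : (T^[n + 1] ⁻¹' G) ∆ (T^[n] ⁻¹' G) = T^[n] ⁻¹' ((T ⁻¹' G) ∆ G) := by
        ext x
        simp only [Set.mem_symmDiff, mem_preimage, Function.iterate_succ_apply']
      rw [h2, real_pre hT n _ ((hT.measurable hG).symmDiff hG)]
    have h3 : μ.real ((T^[n + 1] ⁻¹' G) ∆ G) ≤
        μ.real ((T^[n + 1] ⁻¹' G) ∆ (T^[n] ⁻¹' G)) + μ.real ((T^[n] ⁻¹' G) ∆ G) := measureReal_symmDiff_le _
    push_cast
    linarith

theorem indep (hT : MeasurePreserving T μ μ) (h : MI μ T) {Q : Type*} [Finite Q] (B : Q → Set X)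
    (hB : ∀ q, MeasurableSet (B q)) (ε : ℝ) (hε : 0 < ε) :
    ∃ η : ℝ, 0 < η ∧ ∀ G : Set X, MeasurableSet G → μ.real ((T ⁻¹' G) ∆ G) ≤ η →
      ∀ q, |μ.real (B q ∩ G) - μ.real (B q) * μ.real G| < ε := by
  obtain ⟨K, hK, t, N, hN⟩ := erg hT h (R := 1) (fun q _ => B q) (fun q _ => hB q) (ε / 3) (by positivity)
  have hN0 := hN (fun _ => 0) (fun i j hij => by omega)
  set M : ℕ := ∑ j ∈ Finset.range K, t j with hM
  have hKp : (0 : ℝ) < K := by exact_mod_cast hK
  refine ⟨ε / (3 * (M + 1)), by positivity, fun G hG hG2 q => ?_⟩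
  have hq := hN0 q
  simp only [zero_add, Finset.univ_unique, Fin.default_eq_zero, Fin.isValue, Finset.prod_const,
    Finset.card_singleton, pow_one] at hq
  set E : ℕ → Set X := fun j => {x | ∀ i : Fin 1, T^[t j] x ∈ B q} with hE
  have hE' : ∀ j, E j = T^[t j] ⁻¹' B q := by
    intro j
    ext x
    simp [hE]
  have hEm : ∀ j, MeasurableSet (E j) := by
    intro j
    rw [hE']
    exact hT.measurable.iterate _ (hB q)
  have hq' : ∫ x, |(1 / (K : ℝ)) * ∑ j ∈ Finset.range K, ind (E j) x - μ.real (B q)| ∂μ ≤ ε / 3 := hq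
  -- first estimate
  have h1 : ∀ j ∈ Finset.range K, |μ.real (B q ∩ G) - μ.real (E j ∩ G)| ≤ ε / 3 := by
    intro j hj
    have e1 : μ.real (B q ∩ G) = μ.real (T^[t j] ⁻¹' (B q ∩ G)) := (real_pre hT _ _ ((hB q).inter hG)).symm
    rw [e1]
    refine (abs_real_sub (hT.measurable.iterate _ ((hB q).inter hG)) ((hEm j).inter hG)).trans ?_
    have e2 : (T^[t j] ⁻¹' (B q ∩ G)) ∆ (E j ∩ G) ⊆ (T^[t j] ⁻¹' G) ∆ G := by
      intro x hx
      rw [hE'] at hx
      simp only [Set.mem_symmDiff, mem_preimage, mem_inter_iff] at hx ⊢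
      tauto
    refine (measureReal_mono e2).trans ((inv_it hT G hG (t j)).trans ?_)
    have e3 : (t j : ℝ) ≤ M := by
      exact_mod_cast Finset.single_le_sum (f := t) (fun _ _ => Nat.zero_le _) hj
    have e4 : (t j : ℝ) * μ.real ((T ⁻¹' G) ∆ G) ≤ (M + 1) * (ε / (3 * (M + 1))) :=
      mul_le_mul (by linarith) hG2 measureReal_nonneg (by positivity)
    refine e4.trans (le_of_eq ?_)
    field_simp
  have h2 : |μ.real (B q ∩ G) - (1 / (K : ℝ)) * ∑ j ∈ Finset.range K, μ.real (E j ∩ G)| ≤ ε / 3 := by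
    have e1 : μ.real (B q ∩ G) - (1 / (K : ℝ)) * ∑ j ∈ Finset.range K, μ.real (E j ∩ G) =
        (1 / (K : ℝ)) * ∑ j ∈ Finset.range K, (μ.real (B q ∩ G) - μ.real (E j ∩ G)) := by
      rw [Finset.sum_sub_distrib, Finset.sum_const, Finset.card_range, nsmul_eq_mul]
      field_simp
    rw [e1, abs_mul, abs_of_nonneg (by positivity : 0 ≤ 1 / (K : ℝ))]
    have e2 := (Finset.abs_sum_le_sum_abs (fun j => μ.real (B q ∩ G) - μ.real (E j ∩ G)) (Finset.range K)).trans
      (Finset.sum_le_sum h1)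
    rw [Finset.sum_const, Finset.card_range, nsmul_eq_mul] at e2
    have e3 : (1 / (K : ℝ)) * |∑ j ∈ Finset.range K, (μ.real (B q ∩ G) - μ.real (E j ∩ G))| ≤
        (1 / (K : ℝ)) * (K * (ε / 3)) := mul_le_mul_of_nonneg_left e2 (by positivity)
    refine e3.trans (le_of_eq ?_)
    field_simp
  -- second estimate
  have hsi : Integrable (fun x => (1 / (K : ℝ)) * ∑ j ∈ Finset.range K, ind (E j) x - μ.real (B q)) μ :=
    ((integrable_finsetSum _ fun j _ => ind_int (hEm j)).const_mul _).sub (integrable_const _)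
  have h3 : |(1 / (K : ℝ)) * ∑ j ∈ Finset.range K, μ.real (E j ∩ G) - μ.real (B q) * μ.real G| ≤ ε / 3 := by
    have e0 : ∀ x, ind G x * ((1 / (K : ℝ)) * ∑ j ∈ Finset.range K, ind (E j) x - μ.real (B q)) =
        (1 / (K : ℝ)) * ∑ j ∈ Finset.range K, ind (E j ∩ G) x - μ.real (B q) * ind G x := by
      intro x
      simp only [← ind_mul]
      rw [← Finset.sum_mul]
      ring
    have i1 : Integrable (fun x => (1 / (K : ℝ)) * ∑ j ∈ Finset.range K, ind (E j ∩ G) x) μ :=
      (integrable_finsetSum _ fun j _ => ind_int ((hEm j).inter hG)).const_mul _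
    have i2 : Integrable (fun x => μ.real (B q) * ind G x) μ := (ind_int hG).const_mul _
    have e1 : (1 / (K : ℝ)) * ∑ j ∈ Finset.range K, μ.real (E j ∩ G) - μ.real (B q) * μ.real G =
        ∫ x, ind G x * ((1 / (K : ℝ)) * ∑ j ∈ Finset.range K, ind (E j) x - μ.real (B q)) ∂μ := by
      simp only [e0]
      rw [integral_sub i1 i2, integral_const_mul, integral_const_mul, int_ind hG,
        integral_finsetSum _ fun j _ => ind_int ((hEm j).inter hG)]
      simp only [int_ind ((hEm _).inter hG)]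
    rw [e1]
    refine (abs_integral_le_integral_abs).trans (le_trans ?_ hq')
    refine integral_mono_of_nonneg (Eventually.of_forall fun x => abs_nonneg _) hsi.abs
      (Eventually.of_forall fun x => ?_)
    show |ind G x * ((1 / (K : ℝ)) * ∑ j ∈ Finset.range K, ind (E j) x - μ.real (B q))| ≤
      |(1 / (K : ℝ)) * ∑ j ∈ Finset.range K, ind (E j) x - μ.real (B q)|
    rw [abs_mul]
    have e2 := ind_bd G x
    have e3 : |ind G x| ≤ 1 := by
      rw [abs_of_nonneg e2.1]
      exact e2.2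
    exact mul_le_of_le_one_left (abs_nonneg _) e3
  have h4 := abs_sub_le (μ.real (B q ∩ G)) ((1 / (K : ℝ)) * ∑ j ∈ Finset.range K, μ.real (E j ∩ G))
    (μ.real (B q) * μ.real G)
  linarith

end indep

end Pool.Agent.U808.MM
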