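import Mathlib
import Pool.Agent.U808.MM4

set_option autoImplicit false
set_option linter.unusedSectionVars false
set_option linter.unusedVariables false

/-!
Density of spread coboundaries.
-/

namespace Pool.Agent.U808.MM

open MeasureTheory Set Filter Topology
open scoped ENNReal symmDiff
open Pool.H359R3 Pool.H359R3.IX
open Pool.Agent.W744.NG

section dens
variable {X Y : Type} [MeasurableSpace X] [StandardBorelSpace X] [MeasurableSpace Y] [StandardBorelSpace Y]
  {μ : Measure X} {ν : Measure Y} [IsProbabilityMeasure μ] [IsProbabilityMeasure ν]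

/-- the fibred map `(x, y) ↦ (x, β(x) y)` -/
def fb (β : Coc X ν) (z : X × Y) : X × Y := (z.1, (β.1 z.1).1 z.2)

theorem fb_mp (β : Coc X ν) : MeasurePreserving (fb β) (μ.prod ν) (μ.prod ν) := sk_mp (oneA : AU μ) β

theorem real_preim {Z : Type*} [MeasurableSpace Z] {m : Measure Z} [IsProbabilityMeasure m] {f : Z → Z}
    (hf : MeasurePreserving f m m) (s : Set Z) (hs : MeasurableSet s) : m.real (f ⁻¹' s) = m.real s := by
  rw [measureReal_def, hf.measure_preimage hs.nullMeasurableSet, measureReal_def]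

theorem real_preim_sd {Z : Type*} [MeasurableSpace Z] {m : Measure Z} [IsProbabilityMeasure m] {f : Z → Z}
    (hf : MeasurePreserving f m m) (s t : Set Z) (hs : MeasurableSet s) (ht : MeasurableSet t) :
    m.real ((f ⁻¹' s) ∆ (f ⁻¹' t)) = m.real (s ∆ t) := by
  rw [← preimage_symmDiff, real_preim hf _ (hs.symmDiff ht)]

theorem dens [NullSingletonClass μ] (T : AU μ) (h : MI μ T.1) (D : YS ν) {R : ℕ} (C : Fin R → Set (X × Y))
    (hC : ∀ i, MeasurableSet (C i)) (Φ : Coc X ν) (δ ε : ℝ) (hδ : 0 < δ) (hε : 0 < ε) :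
    ∃ (β α : Coc X ν) (r : ℕ) (A : Fin R → (Fin r → ZMod 2) → Set X),
      (∀ i w, MeasurableSet (A i w)) ∧
      (∀ x y, (α.1 x).1 y = (β.1 (T.1 x)).1 ((β.1 x).1.symm y)) ∧
      (∃ E : Set X, MeasurableSet E ∧ μ.real E < δ ∧ ∀ x, x ∉ E → α.1 x = Φ.1 x) ∧
      (∀ i, (μ.prod ν).real ((fb β ⁻¹' C i) ∆ stp D (A i)) < ε) ∧
      ∀ i w, |μ.real (A i w) - (μ.prod ν).real (C i)| < ε := by
  classical
  obtain ⟨τ, hτ, E1, hE1, hE1δ, hτE⟩ := tower T h (δ / 2) (by positivity)
  obtain ⟨θ, hθ⟩ := Theta.theta X Y μ ν T Φ τ hτ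
  have hH : ∀ i, MeasurableSet (fb θ ⁻¹' C i) := fun i => (fb_mp (μ := μ) θ).measurable (hC i)
  have hap := fun i => apx_all (μ := μ) D (fb θ ⁻¹' C i) (hH i) (ε / 2) (by positivity)
  choose r0 hr0 using hap
  obtain ⟨r, hr⟩ := Finite.exists_le r0
  choose B hB hB2 using fun i => hr0 i r (hr i)
  obtain ⟨η, hη, hind⟩ := indep T.2 h (Q := Fin R × (Fin r → ZMod 2)) (fun q => B q.1 q.2)
    (fun q => hB _ _) (ε / (2 * 2 ^ r)) (by positivity)
  obtain ⟨γ, hγm, hγu, E2, hE2, hE2δ, hγE⟩ := label T h r (min (δ / 2) η) (by positivity)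
  let G : Coc X ν := ⟨fun x => D.act r (γ x), Dens.act_meas γ hγm (fun z => z.2) measurable_snd
    (fun w => (D.act r w).1) (fun w => (D.act r w).1.measurable)⟩
  let β : Coc X ν := Theta.mulC θ G
  let α : Coc X ν := Theta.mulC (Theta.shC T β) (Theta.invC β)
  have hstp : ∀ i, stp D (fun w => {x | x ∈ B i (w + γ x)}) = fb G ⁻¹' stp D (B i) := by
    intro i
    ext z
    show z.1 ∈ B i (D.v r z.2 + γ z.1) ↔ z.1 ∈ B i (D.v r ((D.act r (γ z.1)).1 z.2))
    rw [D.v_act]
  have hAeq : ∀ i w, {x | x ∈ B i (w + γ x)} = ⋃ w' ∈ (Finset.univ : Finset (Fin r → ZMod 2)),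
      (B i (w + w') ∩ {x | γ x = w'}) := by
    intro i w
    ext x
    simp
  refine ⟨β, α, r, fun i w => {x | x ∈ B i (w + γ x)}, fun i w => ?_, fun x y => rfl,
    ⟨E1 ∪ E2, hE1.union hE2, ?_, fun x hx => ?_⟩, fun i => ?_, fun i w => ?_⟩
  · show MeasurableSet {x | x ∈ B i (w + γ x)}
    rw [hAeq]
    exact Finset.measurableSet_biUnion _ fun w' _ => (hB _ _).inter (hγm w')
  · have h1 := measureReal_union_le (μ := μ) E1 E2
    have h2 := min_le_left (δ / 2) η
    linarith
  · rw [mem_union, not_or] at hx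
    have e1 := hτE x hx.1
    have e2 := hγE x hx.2
    apply Subtype.ext
    apply MeasurableEquiv.ext
    funext y
    show (θ.1 (T.1 x)).1 ((D.act r (γ (T.1 x))).1 ((D.act r (γ x)).1.symm ((θ.1 x).1.symm y))) = (Φ.1 x).1 y
    rw [e2, hθ x e1]
    simp
  · rw [hstp]
    have e1 : fb β ⁻¹' C i = fb G ⁻¹' (fb θ ⁻¹' C i) := rfl
    rw [e1, real_preim_sd (fb_mp (μ := μ) G) _ _ (hH i) (stp_meas D _ (hB i))]
    have := hB2 i
    linarith
  · have e1 : μ.real {x | x ∈ B i (w + γ x)} = ∑ w', μ.real (B i (w + w') ∩ {x | γ x = w'}) := by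
      rw [hAeq, measureReal_biUnion_finset]
      · intro w1 _ w2 _ hw
        rw [Function.onFun, Set.disjoint_left]
        rintro x ⟨_, h2⟩ ⟨_, h3⟩
        exact hw (h2.symm.trans h3)
      · intro w' _
        exact (hB _ _).inter (hγm w')
    have e2 : |∑ w', μ.real (B i (w + w') ∩ {x | γ x = w'}) - ∑ w', μ.real (B i (w + w')) * (1 / 2 ^ r)| ≤
        ε / 2 := by
      rw [← Finset.sum_sub_distrib]
      refine (Finset.abs_sum_le_sum_abs _ _).trans ?_
      have e3 : ∀ w' ∈ (Finset.univ : Finset (Fin r → ZMod 2)),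
          |μ.real (B i (w + w') ∩ {x | γ x = w'}) - μ.real (B i (w + w')) * (1 / 2 ^ r)| ≤ ε / (2 * 2 ^ r) := by
        intro w' _
        have e4 := hind {x | γ x = w'} (hγm w') (by
          refine (measureReal_mono (s₂ := E2) ?_).trans (hE2δ.le.trans (min_le_right _ _))
          intro x hx
          by_contra hxE
          have e5 := hγE x hxE
          rw [Set.mem_symmDiff] at hx
          simp only [mem_preimage, mem_ofPred_eq, e5] at hx
          tauto) (i, w + w')
        rw [hγu w'] at e4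
        exact e4.le
      refine (Finset.sum_le_sum e3).trans (le_of_eq ?_)
      rw [Finset.sum_const, Finset.card_univ, Fintype.card_fun, ZMod.card, Fintype.card_fin, nsmul_eq_mul]
      push_cast
      field_simp
    have e5 : ∑ w', μ.real (B i (w + w')) * (1 / 2 ^ r) = (μ.prod ν).real (stp D (B i)) := by
      rw [stp_real D (B i) (hB i)]
      exact Fintype.sum_equiv (Equiv.addLeft w) _ _ (fun w' => rfl)
    have e6 : |(μ.prod ν).real (fb θ ⁻¹' C i) - (μ.prod ν).real (stp D (B i))| < ε / 2 :=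
      lt_of_le_of_lt (abs_real_sub (hH i) (stp_meas D _ (hB i))) (hB2 i)
    rw [real_preim (fb_mp (μ := μ) θ) _ (hC i)] at e6
    show |μ.real {x | x ∈ B i (w + γ x)} - (μ.prod ν).real (C i)| < ε
    rw [e1]
    rw [e5] at e2
    have e7 := abs_sub_le (∑ w', μ.real (B i (w + w') ∩ {x | γ x = w'})) ((μ.prod ν).real (stp D (B i)))
      ((μ.prod ν).real (C i))
    rw [abs_sub_comm] at e6
    linarith

end dens

end Pool.Agent.U808.MM
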