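import Mathlib
import Pool.Agent.U808.MM5

set_option autoImplicit false
set_option linter.unusedSectionVars false
set_option linter.unusedVariables false

/-!
The main estimate.
-/

namespace Pool.Agent.U808.MM

open MeasureTheory Set Filter Topology
open scoped ENNReal symmDiff
open Pool.H359R3 Pool.H359R3.IX
open Pool.Agent.W744.NG

section main
variable {X Y : Type} [MeasurableSpace X] [StandardBorelSpace X] [MeasurableSpace Y] [StandardBorelSpace Y]
  {μ : Measure X} {ν : Measure Y} [IsProbabilityMeasure μ] [IsProbabilityMeasure ν]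

theorem sk_iter_fst (T : X → X) (Φ : Coc X ν) (n : ℕ) (z : X × Y) : ((sk T Φ)^[n] z).1 = T^[n] z.1 := by
  induction n with
  | zero => rfl
  | succ n ih =>
    rw [Function.iterate_succ_apply', Function.iterate_succ_apply', ← ih]
    rfl

theorem cob_iter (T : AU μ) (β α : Coc X ν)
    (hα : ∀ x y, (α.1 x).1 y = (β.1 (T.1 x)).1 ((β.1 x).1.symm y)) (n : ℕ) (z : X × Y) :
    (sk (T.1 : X → X) α)^[n] z = fb β ((T.1 : X → X)^[n] z.1, (β.1 z.1).1.symm z.2) := by
  induction n with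
  | zero =>
    show z = (z.1, (β.1 z.1).1 ((β.1 z.1).1.symm z.2))
    simp
  | succ n ih =>
    rw [Function.iterate_succ_apply', ih, Function.iterate_succ_apply']
    unfold fb Pool.Agent.W744.NG.sk
    simp only [hα]
    simp

/-- the map `z ↦ (T^k x, β(x)⁻¹ y)` -/
def Mk (T : AU μ) (β : Coc X ν) (k : ℕ) (z : X × Y) : X × Y :=
  ((T.1 : X → X)^[k] z.1, (β.1 z.1).1.symm z.2)

theorem Mk_mp (T : AU μ) (β : Coc X ν) (k : ℕ) : MeasurePreserving (Mk T β k) (μ.prod ν) (μ.prod ν) := by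
  have h1 : MeasurePreserving (Prod.map ((T.1 : X → X)^[k]) (id : Y → Y)) (μ.prod ν) (μ.prod ν) :=
    (T.2.iterate k).prod (MeasurePreserving.id ν)
  exact h1.comp (fb_mp (μ := μ) (Theta.invC β))

theorem nb_pow (T : AU μ) (α : Coc X ν) (C : Set (X × Y)) (hC : MeasurableSet C) (k : ℕ) (ε : ℝ) (hε : 0 < ε) :
    ∀ᶠ Φ in @nhds (Coc X ν) (tC μ ν) α, (μ.prod ν).real
      (((sk (T.1 : X → X) Φ)^[k] ⁻¹' C) ∆ ((sk (T.1 : X → X) α)^[k] ⁻¹' C)) < ε := by
  obtain ⟨F⟩ := exists_DF (μ.prod ν)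
  have h1 := Open.skA_cont (μ := μ) (ν := ν) Ind.main F T
  have h2 : Tendsto (fun Ψ : Coc X ν => skA T Ψ) (@nhds (Coc X ν) (tC μ ν) α)
      (@nhds _ (un F).toTopologicalSpace (skA T α)) :=
    (@continuous_iff_continuousAt _ _ (tC μ ν) (un F).toTopologicalSpace _).1 h1 α
  have h3 := tend_pow F _ _ _ h2 k
  have h4 := of_tendsto_un F _ _ _ h3 C hC (measure_lt_top _ _)
  have h5 := h4.eventually (gt_mem_nhds (ENNReal.ofReal_pos.2 hε))
  refine h5.mono fun Φ hΦ => ?_
  have e1 : ∀ Ψ : Coc X ν, (⇑(powA (skA T Ψ) k).1 : X × Y → X × Y) = (sk (T.1 : X → X) Ψ)^[k] := by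
    intro Ψ
    funext z
    rw [powA_apply]
    rfl
  rw [e1, e1] at hΦ
  rw [measureReal_def]
  exact ENNReal.toReal_lt_of_lt_ofReal hΦ

theorem main_ineq (T : AU μ) (D : YS ν) {R : ℕ} (C : Fin R → Set (X × Y)) (hC : ∀ i, MeasurableSet (C i))
    (β α : Coc X ν) (hα : ∀ x y, (α.1 x).1 y = (β.1 (T.1 x)).1 ((β.1 x).1.symm y)) {r : ℕ}
    (A : Fin R → (Fin r → ZMod 2) → Set X) (hA : ∀ i w, MeasurableSet (A i w)) (ε : ℝ) (hε : 0 < ε)
    (hc : ∀ i, (μ.prod ν).real ((fb β ⁻¹' C i) ∆ stp D (A i)) < ε)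
    (hd : ∀ i w, |μ.real (A i w) - (μ.prod ν).real (C i)| < ε) (K : ℕ) (hK : 0 < K) (t : ℕ → ℕ)
    (Φ : Coc X ν) (hΦ : ∀ i, ∀ j < K, (μ.prod ν).real
      (((sk (T.1 : X → X) Φ)^[t j] ⁻¹' C i) ∆ ((sk (T.1 : X → X) α)^[t j] ⁻¹' C i)) < ε)
    (n : Fin R → ℕ)
    (herg : ∀ q : Fin R → (Fin r → ZMod 2), ∫ x, |(1 / (K : ℝ)) * ∑ j ∈ Finset.range K,
      ind {x | ∀ i, (T.1 : X → X)^[n i + t j] x ∈ A i (q i)} x - ∏ i, μ.real (A i (q i))| ∂μ ≤
      ε / Fintype.card (Fin R → (Fin r → ZMod 2))) :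
    |(μ.prod ν).real {z | ∀ i, (sk (T.1 : X → X) Φ)^[n i] z ∈ C i} - ∏ i, (μ.prod ν).real (C i)| ≤
      (3 * R + 1) * ε := by
  classical
  set m := μ.prod ν with hm
  set S : X × Y → X × Y := sk (T.1 : X → X) Φ with hS
  have hSmp : MeasurePreserving S m m := sk_mp T Φ
  have hKp : (0 : ℝ) < K := by exact_mod_cast hK
  set Dk : Fin R → ℕ → Set (X × Y) := fun i j => Mk T β (t j) ⁻¹' stp D (A i) with hDk
  have hDkm : ∀ i j, MeasurableSet (Dk i j) := fun i j => (Mk_mp T β (t j)).measurable (stp_meas D _ (hA i))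
  set F : ℕ → Set (X × Y) := fun j => {z | ∀ i, S^[n i] z ∈ Dk i j} with hF
  have hFm : ∀ j, MeasurableSet (F j) := fun j => meas_cyl hSmp.measurable _ (fun i => hDkm i j) n
  set I0 : ℝ := m.real {z | ∀ i, S^[n i] z ∈ C i} with hI0
  have hC0 : MeasurableSet {z | ∀ i, S^[n i] z ∈ C i} := meas_cyl hSmp.measurable C hC n
  -- first step
  have h1 : ∀ j ∈ Finset.range K, |I0 - m.real (F j)| ≤ 2 * R * ε := by
    intro j hj
    have e1 : I0 = m.real (S^[t j] ⁻¹' {z | ∀ i, S^[n i] z ∈ C i}) := (real_pre hSmp _ _ hC0).symm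
    rw [e1]
    refine (abs_real_sub (hSmp.measurable.iterate _ hC0) (hFm j)).trans ?_
    have e2 : (S^[t j] ⁻¹' {z | ∀ i, S^[n i] z ∈ C i}) ∆ F j ⊆
        ⋃ i ∈ (Finset.univ : Finset (Fin R)), S^[n i] ⁻¹' ((S^[t j] ⁻¹' C i) ∆ Dk i j) := by
      intro z hz
      have e3 : ∀ i, S^[n i] (S^[t j] z) = S^[t j] (S^[n i] z) := by
        intro i
        rw [← Function.iterate_add_apply, ← Function.iterate_add_apply, add_comm]
      simp only [Finset.mem_univ, iUnion_true, mem_iUnion, mem_preimage, Set.mem_symmDiff]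
      simp only [Set.mem_symmDiff, mem_preimage, mem_ofPred_eq, hF, e3] at hz
      by_contra hcon
      push Not at hcon
      rcases hz with ⟨h5, h6⟩ | ⟨h5, h6⟩
      · exact h6 fun i => (hcon i).1 (h5 i)
      · exact h6 fun i => (hcon i).2 (h5 i)
    refine (measureReal_mono e2 (measure_ne_top _ _)).trans ((measureReal_biUnion_finset_le _ _).trans ?_)
    have e4 : ∀ i ∈ (Finset.univ : Finset (Fin R)), m.real (S^[n i] ⁻¹' ((S^[t j] ⁻¹' C i) ∆ Dk i j)) ≤ 2 * ε := by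
      intro i _
      rw [real_pre hSmp _ _ ((hSmp.measurable.iterate _ (hC i)).symmDiff (hDkm i j))]
      have e5 : (sk (T.1 : X → X) α)^[t j] ⁻¹' C i = Mk T β (t j) ⁻¹' (fb β ⁻¹' C i) := by
        ext z
        rw [mem_preimage, cob_iter T β α hα]
        rfl
      have e6 := real_sd_tri m (S^[t j] ⁻¹' C i) ((sk (T.1 : X → X) α)^[t j] ⁻¹' C i) (Dk i j)
      have e7 : m.real (((sk (T.1 : X → X) α)^[t j] ⁻¹' C i) ∆ Dk i j) < ε := by
        rw [e5, hDk, real_preim_sd (Mk_mp T β (t j)) _ _ ((fb_mp (μ := μ) β).measurable (hC i))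
          (stp_meas D _ (hA i))]
        exact hc i
      have e8 := hΦ i j (Finset.mem_range.1 hj)
      linarith
    refine (Finset.sum_le_sum e4).trans (le_of_eq ?_)
    rw [Finset.sum_const, Finset.card_univ, Fintype.card_fin, nsmul_eq_mul]
    ring
  have h2 : |I0 - (1 / (K : ℝ)) * ∑ j ∈ Finset.range K, m.real (F j)| ≤ 2 * R * ε := by
    have e1 : I0 - (1 / (K : ℝ)) * ∑ j ∈ Finset.range K, m.real (F j) =
        (1 / (K : ℝ)) * ∑ j ∈ Finset.range K, (I0 - m.real (F j)) := by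
      rw [Finset.sum_sub_distrib, Finset.sum_const, Finset.card_range, nsmul_eq_mul]
      field_simp
    rw [e1, abs_mul, abs_of_nonneg (by positivity : 0 ≤ 1 / (K : ℝ))]
    have e2 := (Finset.abs_sum_le_sum_abs (fun j => I0 - m.real (F j)) (Finset.range K)).trans
      (Finset.sum_le_sum h1)
    rw [Finset.sum_const, Finset.card_range, nsmul_eq_mul] at e2
    have e3 : (1 / (K : ℝ)) * |∑ j ∈ Finset.range K, (I0 - m.real (F j))| ≤
        (1 / (K : ℝ)) * (K * (2 * R * ε)) := mul_le_mul_of_nonneg_left e2 (by positivity)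
    refine e3.trans (le_of_eq ?_)
    field_simp
  -- second step
  set P : ℝ := ∏ i, m.real (C i) with hP
  set s : (Fin R → (Fin r → ZMod 2)) → X → ℝ := fun q x => (1 / (K : ℝ)) * ∑ j ∈ Finset.range K,
      ind {x | ∀ i, (T.1 : X → X)^[n i + t j] x ∈ A i (q i)} x - ∏ i, μ.real (A i (q i)) with hs
  have hsm : ∀ (q : Fin R → (Fin r → ZMod 2)) (j : ℕ),
      MeasurableSet {x | ∀ i, (T.1 : X → X)^[n i + t j] x ∈ A i (q i)} := fun q j =>
    meas_cyl T.2.measurable (fun i => A i (q i)) (fun i => hA i _) _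
  have hsi : ∀ q, Integrable (fun x => |s q x|) μ := fun q =>
    (((integrable_finsetSum _ fun j _ => ind_int (hsm q j)).const_mul _).sub (integrable_const _)).abs
  have hsi2 : Integrable (fun x => ∑ q, |s q x|) μ := integrable_finsetSum _ fun q _ => hsi q
  have hsi3 : Integrable (fun z : X × Y => ∑ q, |s q z.1|) m :=
    hsi2.comp_fst (ν := ν) 
  have hpt : ∀ z : X × Y, |(1 / (K : ℝ)) * ∑ j ∈ Finset.range K, ind (F j) z - P| ≤
      ∑ q, |s q z.1| + R * ε := by
    intro z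
    set q : Fin R → (Fin r → ZMod 2) := fun i => D.v r ((β.1 (S^[n i] z).1).1.symm (S^[n i] z).2) with hq
    have e1 : ∀ j, ind (F j) z = ind {x | ∀ i, (T.1 : X → X)^[n i + t j] x ∈ A i (q i)} z.1 := by
      intro j
      have e2 : z ∈ F j ↔ z.1 ∈ {x | ∀ i, (T.1 : X → X)^[n i + t j] x ∈ A i (q i)} := by
        have e3 : ∀ i, S^[n i] z ∈ Dk i j ↔ (T.1 : X → X)^[n i + t j] z.1 ∈ A i (q i) := by
          intro i
          show (T.1 : X → X)^[t j] (S^[n i] z).1 ∈ A i (q i) ↔ _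
          rw [hS, sk_iter_fst, ← Function.iterate_add_apply, add_comm]
        exact forall_congr' e3
      unfold ind
      by_cases h5 : z ∈ F j
      · rw [indicator_of_mem h5, indicator_of_mem (e2.1 h5)]
      · rw [indicator_of_notMem h5, indicator_of_notMem (fun h6 => h5 (e2.2 h6))]
    simp only [e1]
    have e4 : |s q z.1| ≤ ∑ q, |s q z.1| :=
      Finset.single_le_sum (f := fun q => |s q z.1|) (fun q _ => abs_nonneg _) (Finset.mem_univ q)
    have e5 : |∏ i, μ.real (A i (q i)) - P| ≤ R * ε := by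
      refine (prod_diff Finset.univ (fun i => μ.real (A i (q i))) (fun i => m.real (C i))
        (fun i => real_abs_le _) (fun i => real_abs_le _)).trans ?_
      refine (Finset.sum_le_sum fun i _ => (hd i (q i)).le).trans (le_of_eq ?_)
      rw [Finset.sum_const, Finset.card_univ, Fintype.card_fin, nsmul_eq_mul]
    have e6 := abs_sub_le ((1 / (K : ℝ)) * ∑ j ∈ Finset.range K,
      ind {x | ∀ i, (T.1 : X → X)^[n i + t j] x ∈ A i (q i)} z.1) (∏ i, μ.real (A i (q i))) P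
    have e7 : |(1 / (K : ℝ)) * ∑ j ∈ Finset.range K,
      ind {x | ∀ i, (T.1 : X → X)^[n i + t j] x ∈ A i (q i)} z.1 - ∏ i, μ.real (A i (q i))| = |s q z.1| := rfl
    linarith
  have h3 : |(1 / (K : ℝ)) * ∑ j ∈ Finset.range K, m.real (F j) - P| ≤ ε + R * ε := by
    have i1 : Integrable (fun z => (1 / (K : ℝ)) * ∑ j ∈ Finset.range K, ind (F j) z) m :=
      (integrable_finsetSum _ fun j _ => ind_int (hFm j)).const_mul _
    have e1 : (1 / (K : ℝ)) * ∑ j ∈ Finset.range K, m.real (F j) - P =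
        ∫ z, ((1 / (K : ℝ)) * ∑ j ∈ Finset.range K, ind (F j) z - P) ∂m := by
      rw [integral_sub i1 (integrable_const _), integral_const_mul,
        integral_finsetSum _ fun j _ => ind_int (hFm j)]
      simp only [int_ind (hFm _)]
      simp
    rw [e1]
    refine (abs_integral_le_integral_abs).trans ?_
    have i2 : Integrable (fun z : X × Y => ∑ q, |s q z.1| + (R : ℝ) * ε) m := hsi3.add (integrable_const _)
    refine (integral_mono (i1.sub (integrable_const _)).abs i2 hpt).trans ?_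
    rw [integral_add hsi3 (integrable_const _)]
    have e2 : ∫ z : X × Y, ∑ q, |s q z.1| ∂m = ∫ x, ∑ q, |s q x| ∂μ := by
      rw [hm, integral_fun_fst (fun x => ∑ q, |s q x|)]
      simp
    rw [e2, integral_finsetSum _ fun q _ => hsi q]
    have e3 : ∑ q : Fin R → (Fin r → ZMod 2), ∫ x, |s q x| ∂μ ≤
        ∑ q : Fin R → (Fin r → ZMod 2), ε / Fintype.card (Fin R → (Fin r → ZMod 2)) :=
      Finset.sum_le_sum fun q _ => herg q
    rw [Finset.sum_const, Finset.card_univ, nsmul_eq_mul] at e3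
    have e4 : (Fintype.card (Fin R → (Fin r → ZMod 2)) : ℝ) *
        (ε / Fintype.card (Fin R → (Fin r → ZMod 2))) = ε := by
      have : (0 : ℝ) < Fintype.card (Fin R → (Fin r → ZMod 2)) := by exact_mod_cast Fintype.card_pos
      field_simp
    rw [e4] at e3
    have e5 : ∫ _z : X × Y, (R : ℝ) * ε ∂m = R * ε := by simp
    rw [e5]
    linarith
  have h4 := abs_sub_le I0 ((1 / (K : ℝ)) * ∑ j ∈ Finset.range K, m.real (F j)) P
  have h5 : (3 * (R : ℝ) + 1) * ε = 2 * R * ε + (ε + R * ε) := by ring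
  rw [h5]
  linarith

end main

end Pool.Agent.U808.MM
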