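import Mathlib
import Pool.Agent.U808.MM6

set_option autoImplicit false
set_option linter.unusedSectionVars false
set_option linter.unusedVariables false

/-!
The generic extension of a multiply mixing automorphism is multiply mixing.
-/

namespace Pool.Agent.U808.MM

open MeasureTheory Set Filter Topology
open scoped ENNReal symmDiff
open Pool.H359R3 Pool.H359R3.IX
open Pool.Agent.W744.NG

section gen
variable {X Y : Type} [MeasurableSpace X] [StandardBorelSpace X] [MeasurableSpace Y] [StandardBorelSpace Y]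
  {μ : Measure X} {ν : Measure Y} [IsProbabilityMeasure μ] [IsProbabilityMeasure ν]

variable (μ ν) in
/-- the cocycles with good correlations of `C` -/
def Gd (T : X → X) {R : ℕ} (C : Fin R → Set (X × Y)) (ε : ℝ) : Set (Coc X ν) :=
  {Φ | ∃ N : ℕ, ∀ n : Fin R → ℕ, (∀ i j, i < j → n i + N ≤ n j) →
    |(μ.prod ν).real {z | ∀ i, (sk T Φ)^[n i] z ∈ C i} - ∏ i, (μ.prod ν).real (C i)| ≤ ε}

theorem Gd_nhds (T : AU μ) (h : MI μ T.1) (D : YS ν) {R : ℕ} (C : Fin R → Set (X × Y))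
    (hC : ∀ i, MeasurableSet (C i))
    (β α : Coc X ν) (hα : ∀ x y, (α.1 x).1 y = (β.1 (T.1 x)).1 ((β.1 x).1.symm y)) {r : ℕ}
    (A : Fin R → (Fin r → ZMod 2) → Set X) (hA : ∀ i w, MeasurableSet (A i w)) (ε : ℝ) (hε : 0 < ε)
    (hc : ∀ i, (μ.prod ν).real ((fb β ⁻¹' C i) ∆ stp D (A i)) < ε)
    (hd : ∀ i w, |μ.real (A i w) - (μ.prod ν).real (C i)| < ε) :
    Gd μ ν T.1 C ((3 * R + 1) * ε) ∈ @nhds (Coc X ν) (tC μ ν) α := by
  have hcard : (0 : ℝ) < Fintype.card (Fin R → (Fin r → ZMod 2)) := by exact_mod_cast Fintype.card_pos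
  obtain ⟨K, hK, t, N, hN⟩ := erg T.2 h (Q := Fin R → (Fin r → ZMod 2)) (fun q i => A i (q i))
    (fun q i => hA i _) (ε / Fintype.card (Fin R → (Fin r → ZMod 2))) (by positivity)
  have h1 : ∀ᶠ Φ in @nhds (Coc X ν) (tC μ ν) α, ∀ i : Fin R, ∀ j ∈ Finset.range K, (μ.prod ν).real
      (((sk (T.1 : X → X) Φ)^[t j] ⁻¹' C i) ∆ ((sk (T.1 : X → X) α)^[t j] ⁻¹' C i)) < ε := by
    refine Filter.eventually_all.2 fun i => ?_
    refine (Filter.eventually_all_finset (Finset.range K)).2 fun j _ => ?_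
    exact nb_pow T α (C i) (hC i) (t j) ε hε
  refine Filter.mem_of_superset h1 fun Φ hΦ => ?_
  refine ⟨N, fun n hn => ?_⟩
  exact main_ineq T D C hC β α hα A hA ε hε hc hd K hK t Φ
    (fun i j hj => hΦ i j (Finset.mem_range.2 hj)) n (hN n hn)

theorem Gd_mono (T : X → X) {R : ℕ} (C : Fin R → Set (X × Y)) (ε ε' : ℝ) (h : ε ≤ ε') :
    Gd μ ν T C ε ⊆ Gd μ ν T C ε' := by
  rintro Φ ⟨N, hN⟩
  exact ⟨N, fun n hn => (hN n hn).trans h⟩

theorem Gd_res [NullSingletonClass μ] (T : AU μ) (h : MI μ T.1) (D : YS ν) {R : ℕ} (C : Fin R → Set (X × Y))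
    (hC : ∀ i, MeasurableSet (C i)) (ε : ℝ) (hε : 0 < ε) :
    Gd μ ν T.1 C ε ∈ @residual (Coc X ν) (tC μ ν) := by
  let _ : TopologicalSpace (Coc X ν) := tC μ ν
  refine Filter.mem_of_superset (residual_of_dense_open (isOpen_interior (s := Gd μ ν T.1 C ε)) ?_) interior_subset
  rw [dense_iff_inter_open]
  intro O hO hne
  obtain ⟨Φ, hΦ⟩ := hne
  have hε' : 0 < ε / (3 * R + 1) := by positivity
  have h2 : ∀ k : ℕ, ∃ α ∈ interior (Gd μ ν T.1 C ε), ∃ E : Set X, MeasurableSet E ∧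
      μ.real E < 1 / ((k : ℝ) + 1) ∧ ∀ x, x ∉ E → α.1 x = Φ.1 x := by
    intro k
    obtain ⟨β, α, r, A, hA, hα, hE, hc, hd⟩ := dens T h D C hC Φ (1 / ((k : ℝ) + 1)) (ε / (3 * R + 1))
      (by positivity) hε'
    refine ⟨α, ?_, hE⟩
    rw [mem_interior_iff_mem_nhds]
    have h3 := Gd_nhds T h D C hC β α hα A hA _ hε' hc hd
    have h4 : (3 * (R : ℝ) + 1) * (ε / (3 * R + 1)) = ε := by field_simp
    rw [h4] at h3
    exact h3
  choose α hα E hE1 hE2 hE3 using h2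
  have h3 : Tendsto (fun k => μ.real (E k)) atTop (𝓝 0) :=
    squeeze_zero (fun k => measureReal_nonneg) (fun k => (hE2 k).le) tendsto_one_div_add_atTop_nhds_zero_nat
  have h4 := Final.tend_of_agree (μ := μ) Ind.main Φ α E hE1 h3 hE3
  obtain ⟨k, hk⟩ := (h4.eventually (hO.mem_nhds hΦ)).exists
  exact ⟨α k, hk, hα k⟩

theorem corr_close {Z : Type*} [MeasurableSpace Z] {m : Measure Z} [IsProbabilityMeasure m] {S : Z → Z}
    (hS : MeasurePreserving S m m) {R : ℕ} (A C : Fin R → Set Z) (hA : ∀ i, MeasurableSet (A i))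
    (hC : ∀ i, MeasurableSet (C i)) (n : Fin R → ℕ) :
    |m.real {z | ∀ i, S^[n i] z ∈ A i} - m.real {z | ∀ i, S^[n i] z ∈ C i}| ≤ ∑ i, m.real (A i ∆ C i) := by
  refine (abs_real_sub (meas_cyl hS.measurable A hA n) (meas_cyl hS.measurable C hC n)).trans ?_
  have e2 : {z | ∀ i, S^[n i] z ∈ A i} ∆ {z | ∀ i, S^[n i] z ∈ C i} ⊆
      ⋃ i ∈ (Finset.univ : Finset (Fin R)), S^[n i] ⁻¹' (A i ∆ C i) := by
    intro z hz
    simp only [Finset.mem_univ, iUnion_true, mem_iUnion, mem_preimage, Set.mem_symmDiff]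
    simp only [Set.mem_symmDiff, mem_ofPred_eq] at hz
    by_contra hcon
    push Not at hcon
    rcases hz with ⟨h5, h6⟩ | ⟨h5, h6⟩
    · exact h6 fun i => (hcon i).1 (h5 i)
    · exact h6 fun i => (hcon i).2 (h5 i)
  refine (measureReal_mono e2 (measure_ne_top _ _)).trans ((measureReal_biUnion_finset_le _ _).trans ?_)
  refine le_of_eq (Finset.sum_congr rfl fun i _ => ?_)
  exact real_pre hS _ _ ((hA i).symmDiff (hC i))

theorem generic [NullSingletonClass μ] (T : AU μ) (h : MI μ T.1) (D : YS ν) :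
    {Φ : Coc X ν | MI (μ.prod ν) (sk T.1 Φ)} ∈ @residual (Coc X ν) (tC μ ν) := by
  let _ : TopologicalSpace (Coc X ν) := tC μ ν
  obtain ⟨F⟩ := exists_DF (μ.prod ν)
  have h1 : (⋂ p : (Σ R : ℕ, (Fin R → ℕ) × ℕ), Gd μ ν T.1 (fun i => F.C (p.2.1 i)) (1 / ((p.2.2 : ℝ) + 1))) ∈
      residual (Coc X ν) := by
    rw [countable_iInter_mem]
    rintro ⟨R, j, p⟩
    exact Gd_res T h D _ (fun i => F.meas _) _ (by positivity)
  refine Filter.mem_of_superset h1 fun Φ hΦ => ?_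
  intro R A hA ε hε
  have hSk := sk_mp T Φ
  have hη : 0 < ε / (4 * (R + 1)) := by positivity
  have h2 : ∀ i, ∃ j, (μ.prod ν).real (A i ∆ F.C j) ≤ ε / (4 * (R + 1)) := by
    intro i
    obtain ⟨j, hj⟩ := F.dense (A i) (hA i) (measure_lt_top _ _) (ENNReal.ofReal (ε / (4 * (R + 1))))
      (ENNReal.ofReal_pos.2 hη)
    exact ⟨j, (ENNReal.toReal_lt_of_lt_ofReal hj).le⟩
  choose j hj using h2
  obtain ⟨p, hp⟩ := exists_nat_one_div_lt (show 0 < ε / 4 by positivity)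
  have h3 := mem_iInter.1 hΦ ⟨R, j, p⟩
  obtain ⟨N, hN⟩ := h3
  refine ⟨N, fun n hn => ?_⟩
  have h4 := hN n hn
  have h5 := corr_close hSk A (fun i => F.C (j i)) hA (fun i => F.meas _) n
  have h6 : ∑ i, (μ.prod ν).real (A i ∆ F.C (j i)) ≤ ε / 4 := by
    refine (Finset.sum_le_sum fun i _ => hj i).trans ?_
    rw [Finset.sum_const, Finset.card_univ, Fintype.card_fin, nsmul_eq_mul]
    have h7 : (R : ℝ) * (ε / (4 * (R + 1))) = ε / 4 * (R / (R + 1)) := by field_simp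
    rw [h7]
    have h8 : (R : ℝ) / (R + 1) ≤ 1 := by
      rw [div_le_one (by positivity)]
      linarith
    have h9 : 0 ≤ ε / 4 := by positivity
    nlinarith
  have h7 : |∏ i, (μ.prod ν).real (A i) - ∏ i, (μ.prod ν).real (F.C (j i))| ≤
      ∑ i, (μ.prod ν).real (A i ∆ F.C (j i)) :=
    (prod_diff Finset.univ (fun i => (μ.prod ν).real (A i)) (fun i => (μ.prod ν).real (F.C (j i)))
      (fun i => real_abs_le _) (fun i => real_abs_le _)).trans
      (Finset.sum_le_sum fun i _ => abs_real_sub (hA i) (F.meas _))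
  have h4' : |(μ.prod ν).real {z | ∀ i, (sk (T.1 : X → X) Φ)^[n i] z ∈ F.C (j i)} -
      ∏ i, (μ.prod ν).real (F.C (j i))| ≤ 1 / ((p : ℝ) + 1) := h4
  have h8 := abs_sub_le ((μ.prod ν).real {z | ∀ i, (sk (T.1 : X → X) Φ)^[n i] z ∈ A i})
    ((μ.prod ν).real {z | ∀ i, (sk (T.1 : X → X) Φ)^[n i] z ∈ F.C (j i)}) (∏ i, (μ.prod ν).real (A i))
  have h9 := abs_sub_le ((μ.prod ν).real {z | ∀ i, (sk (T.1 : X → X) Φ)^[n i] z ∈ F.C (j i)})
    (∏ i, (μ.prod ν).real (F.C (j i))) (∏ i, (μ.prod ν).real (A i))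
  rw [abs_sub_comm] at h7
  linarith

theorem mi_congr {Z : Type*} [MeasurableSpace Z] {m : Measure Z} {S S' : Z → Z}
    (hS : MeasurePreserving S m m) (h : ∀ᵐ z ∂m, S z = S' z) (h1 : MI m S) : MI m S' := by
  intro R A hA ε hε
  obtain ⟨N, hN⟩ := h1 R A hA ε hε
  refine ⟨N, fun n hn => ?_⟩
  have h2 : ∀ k : ℕ, ∀ᵐ z ∂m, S^[k] z = S'^[k] z := by
    intro k
    induction k with
    | zero => exact Eventually.of_forall fun z => rfl
    | succ k ih =>
      have h3 := hS.quasiMeasurePreserving.ae ih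
      filter_upwards [h3, h] with z hz1 hz2
      rw [Function.iterate_succ_apply, Function.iterate_succ_apply, hz1, hz2]
  have h3 : m.real {z | ∀ i, S'^[n i] z ∈ A i} = m.real {z | ∀ i, S^[n i] z ∈ A i} := by
    apply measureReal_congr
    have h4 : ∀ᵐ z ∂m, ∀ i, S^[n i] z = S'^[n i] z := Filter.eventually_all.2 fun i => h2 (n i)
    filter_upwards [h4] with z hz
    apply propext
    show (∀ i, S'^[n i] z ∈ A i) ↔ (∀ i, S^[n i] z ∈ A i)
    simp only [hz]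
  rw [h3]
  exact hN n hn

end gen

/-! ### category -/

theorem gdelta_of_residual {E F : Type*} [TopologicalSpace E] [TopologicalSpace F] [BaireSpace E] (π : E → F)
    (hπ : IsInducing π) (hs : Function.Surjective π) (s : Set F) (h : s ∈ residual F) :
    ∃ G ⊆ s, IsGδ G ∧ Dense G := by
  rw [mem_residual_iff] at h
  obtain ⟨T, hT, hTd, hTc, hTs⟩ := h
  have hopen : IsOpenMap π := by
    intro U hU
    obtain ⟨V, hV, rfl⟩ := hπ.isOpen_iff.1 hU
    rw [image_preimage_eq V hs]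
    exact hV
  refine ⟨⋂₀ T, hTs, ⟨T, hT, hTc, rfl⟩, ?_⟩
  have h1 : Dense (⋂ u ∈ T, π ⁻¹' u) :=
    dense_biInter_of_isOpen (fun u hu => (hT u hu).preimage hπ.continuous) hTc
      (fun u hu => (hTd u hu).preimage hopen)
  rw [dense_iff_inter_open]
  intro O hO hne
  obtain ⟨y, hy⟩ := hne
  obtain ⟨x, rfl⟩ := hs y
  obtain ⟨z, hz1, hz2⟩ := dense_iff_inter_open.1 h1 (π ⁻¹' O) (hO.preimage hπ.continuous) ⟨x, hy⟩
  refine ⟨π z, hz1, fun u hu => ?_⟩
  exact mem_iInter₂.1 hz2 u hu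

end Pool.Agent.U808.MM
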